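import Pool.Agent.Lib.MP_d95e25_ag.Final

/-!
# MP_d95e25_ag: a crepant resolution of the quotient by `p` Jordan blocks of size two

For every prime `p` and every field `k` of characteristic `p`, the quotient
`X = 𝔸^{2p}_k / (ℤ/p)` has a crepant resolution. All definitions used in the statement are in
`Pool/Agent/Lib/MP_d95e25_ag/Defs.lean`.

Proof idea. Write `x_i, y_i` for the coordinates, the generator acting by `y_i ↦ y_i + x_i`.
The resolution is the blowup of `X` in the ideal of `k[V]^G` generated by the `x_i` and the
`x_i y_j - x_j y_i`. It is covered by the charts `D_+(x_i)`, each of which is an affine space with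
coordinates `x_i`, `x_j / x_i`, `y_i ^ p - x_i ^ (p-1) y_i`, `y_j - (x_j / x_i) y_i`, and the
top forms defined by these coordinate systems agree.
-/

set_option autoImplicit false

open CategoryTheory AlgebraicGeometry

namespace Pool.Agent.Results.MP_d95e25_ag.CrepantResolution

open Pool.Agent.Lib.MP_d95e25_ag

universe u

/-- For every prime `p` and every field `k` of characteristic `p`, the quotient
`X = 𝔸^{2p}_k / (ℤ/p)`, the generator acting by `p` Jordan blocks of size two, has a crepant
resolution of singularities. -/
theorem result (p : ℕ) (hp : p.Prime) (k : Type u) [Field k] [CharP k p] :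
    ∃ (Y : Scheme.{u}) (_ : IsIntegral Y) (f : Y ⟶ quotientX p k),
      IsResolution k (2 * p) (quotientXStr p k) f ∧
      IsCrepant k (2 * p) (quotientXStr p k) f := by
  have : Fact p.Prime := ⟨hp⟩
  exact ⟨resY p k, inferInstance, resF p k, resF_isResolution p k, resF_isCrepant p k⟩

end Pool.Agent.Results.MP_d95e25_ag.CrepantResolution
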